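import Pool.Agent.Zk12.FG.Stm

/-!
# Restriction of a Galois section to a smaller function field (part R of project FG)
-/

set_option autoImplicit false

namespace Pool.Agent.Zk90.FG

open Pool.Agent.TH954 Polynomial

/-- roots of polynomials over an algebraically closed subfield lie in the subfield -/
lemma range_of_root {A₀ A : Type} [Field A₀] [Field A] [IsAlgClosed A₀] (e : A₀ →+* A)
    (P : A₀[X]) (hP : P ≠ 0) (x : A) (hx : P.eval₂ e x = 0) : ∃ y, e y = x := by
  have hs : P.Splits := IsAlgClosed.splits P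
  have h1 : (P.map e).roots = P.roots.map e := hs.roots_map e
  have h2 : x ∈ (P.map e).roots := by
    rw [mem_roots_map_of_injective e.injective hP]
    exact hx
  rw [h1, Multiset.mem_map] at h2
  obtain ⟨y, -, hy⟩ := h2
  exact ⟨y, hy⟩

/-- lifting of a ring homomorphism along an embedding of fields -/
lemma lift_hom {R A₀ A : Type} [Ring R] [Field A₀] [Field A] (e : A₀ →+* A) (g : R →+* A)
    (h : ∀ r, ∃ y, e y = g r) : ∃ g₀ : R →+* A₀, ∀ r, e (g₀ r) = g r := by
  choose f hf using h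
  refine ⟨{ toFun := f, map_one' := ?_, map_mul' := ?_, map_zero' := ?_, map_add' := ?_ }, hf⟩
  · apply e.injective
    rw [hf, map_one, map_one]
  · intro x y
    apply e.injective
    rw [hf, map_mul, map_mul, hf, hf]
  · apply e.injective
    rw [hf, map_zero, map_zero]
  · intro x y
    apply e.injective
    rw [hf, map_add, map_add, hf, hf]

/-- the restriction of an automorphism of `Ω` over `F` to the algebraic closure of the small field -/
lemma lift_aut {F₀ F Ω₀ Ω : Type} [Field F₀] [Field F] [Field Ω₀] [Field Ω] [Algebra F₀ Ω₀]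
    [Algebra F Ω] [IsAlgClosure F₀ Ω₀] (i₀ : F₀ →+* F) (e : Ω₀ →+* Ω)
    (he : ∀ z, e (algebraMap F₀ Ω₀ z) = algebraMap F Ω (i₀ z)) (τ : Ω ≃ₐ[F] Ω) (z : Ω₀) :
    ∃ y, e y = τ (e z) := by
  have : IsAlgClosed Ω₀ := IsAlgClosure.isAlgClosed F₀
  have : Algebra.IsAlgebraic F₀ Ω₀ := IsAlgClosure.isAlgebraic
  have hz : IsIntegral F₀ z := Algebra.IsIntegral.isIntegral z
  have h0 : (minpoly F₀ z).map (algebraMap F₀ Ω₀) ≠ 0 :=
    ((minpoly.monic hz).map _).ne_zero
  refine range_of_root e _ h0 _ ?_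
  have h1 : aeval z (minpoly F₀ z) = 0 := minpoly.aeval F₀ z
  have h2 : ((τ : Ω ≃+* Ω) : Ω →+* Ω) (e (aeval z (minpoly F₀ z))) = 0 := by
    rw [h1, map_zero, map_zero]
  rw [aeval_def, hom_eval₂, hom_eval₂] at h2
  rw [eval₂_map]
  have h3 : ((τ : Ω ≃+* Ω) : Ω →+* Ω).comp (e.comp (algebraMap F₀ Ω₀))
      = e.comp (algebraMap F₀ Ω₀) := by
    ext w
    change τ (e (algebraMap F₀ Ω₀ w)) = e (algebraMap F₀ Ω₀ w)
    rw [he]
    exact τ.commutes _
  rw [h3] at h2
  exact h2

theorem res : Pool.Agent.Zk12.FG.S_RES := by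
  intro K k F₀ F Ω₀ Ω B₀ B _ _ _ _ _ _ _ _ _ _ _ _ _ _ _ _ _ _ _ _ _ _ _ _ _ _ s j σ hσ hσj i₀ e he hK
  have : IsAlgClosed Ω₀ := IsAlgClosure.isAlgClosed F₀
  have : Algebra.IsAlgebraic F₀ Ω₀ := IsAlgClosure.isAlgebraic
  have : Algebra.IsAlgebraic F Ω := IsAlgClosure.isAlgebraic
  have : Algebra.IsAlgebraic K B₀ := IsAlgClosure.isAlgebraic
  -- the constants
  have hc : ∀ c : K, s.j (j (algebraMap K B₀ c)) = e (algebraMap K Ω₀ c) := by
    intro c
    rw [j.commutes, IsScalarTower.algebraMap_apply K k B, s.j.commutes,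
      IsScalarTower.algebraMap_apply K F₀ Ω₀, he, hK, ← IsScalarTower.algebraMap_apply k F Ω]
  -- the embedding
  obtain ⟨j₀, hj₀⟩ : ∃ j₀ : B₀ →+* Ω₀, ∀ z, e (j₀ z) = s.j (j z) := by
    refine lift_hom e ((s.j : B →+* Ω).comp (j : B₀ →+* B)) ?_
    intro z
    have hz : IsIntegral K z := Algebra.IsIntegral.isIntegral z
    have h0 : (minpoly K z).map (algebraMap K Ω₀) ≠ 0 :=
      ((minpoly.monic hz).map _).ne_zero
    refine range_of_root e _ h0 _ ?_
    have h1 : aeval z (minpoly K z) = 0 := minpoly.aeval K z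
    have h2 : ((s.j : B →+* Ω).comp (j : B₀ →+* B)) (aeval z (minpoly K z)) = 0 := by
      rw [h1, map_zero]
    rw [aeval_def, hom_eval₂] at h2
    rw [eval₂_map]
    have h3 : ((s.j : B →+* Ω).comp (j : B₀ →+* B)).comp (algebraMap K B₀)
        = e.comp (algebraMap K Ω₀) := by
      ext c
      exact hc c
    rw [h3] at h2
    exact h2
  -- the automorphisms
  have hr : ∀ τ : Ω ≃ₐ[F] Ω, ∃ r : Ω₀ →+* Ω₀, ∀ z, e (r z) = τ (e z) := fun τ =>
    lift_hom e (((τ : Ω ≃+* Ω) : Ω →+* Ω).comp e) (lift_aut i₀ e he τ)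
  choose r hr using hr
  have hrF : ∀ (τ : Ω ≃ₐ[F] Ω) (z : F₀), r τ (algebraMap F₀ Ω₀ z) = algebraMap F₀ Ω₀ z := by
    intro τ z
    apply e.injective
    rw [hr, he]
    exact τ.commutes _
  have hrm : ∀ (τ τ' : Ω ≃ₐ[F] Ω) (z : Ω₀), r (τ * τ') z = r τ (r τ' z) := by
    intro τ τ' z
    apply e.injective
    rw [hr, hr, hr]
    rfl
  have hr1 : ∀ z : Ω₀, r 1 z = z := by
    intro z
    apply e.injective
    rw [hr]
    rfl
  let ρ : (Ω ≃ₐ[F] Ω) →* (Ω₀ ≃ₐ[F₀] Ω₀) :=
    { toFun := fun τ => AlgEquiv.ofAlgHom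
        { toRingHom := r τ, commutes' := hrF τ }
        { toRingHom := r τ⁻¹, commutes' := hrF τ⁻¹ }
        (by
          ext z
          change r τ (r τ⁻¹ z) = z
          rw [← hrm, mul_inv_cancel, hr1])
        (by
          ext z
          change r τ⁻¹ (r τ z) = z
          rw [← hrm, inv_mul_cancel, hr1])
      map_one' := by
        ext z
        exact hr1 z
      map_mul' := by
        intro τ τ'
        ext z
        exact hrm τ τ' z }
  have hρ : ∀ (τ : Ω ≃ₐ[F] Ω) (z : Ω₀), e (ρ τ z) = τ (e z) := fun τ z => hr τ z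
  -- continuity
  have hcont : Continuous ((ρ.comp s.s).comp σ) := by
    refine continuous_of_continuousAt_one _ ?_
    rw [ContinuousAt, map_one]
    intro U hU
    rw [krullTopology_mem_nhds_one_iff] at hU
    obtain ⟨E, hE, hEU⟩ := hU
    obtain ⟨S, hS⟩ : ∃ S : Finset Ω₀, IntermediateField.adjoin F₀ (S : Set Ω₀) = E :=
      IntermediateField.fg_of_fg_toSubalgebra E
        (Subalgebra.fg_of_fg_toSubmodule ((Submodule.fg_iff_finiteDimensional _).2 hE))
    have h1 : ∀ z : Ω₀, {g : B₀ ≃ₐ[K] B₀ | ρ (s.s (σ g)) z = z} ∈ nhds (1 : B₀ ≃ₐ[K] B₀) := by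
      intro z
      have h2 : ContinuousAt (fun g => s.s (σ g)) (1 : B₀ ≃ₐ[K] B₀) :=
        (s.cont.comp hσ).continuousAt
      have h3 : {g : Ω ≃ₐ[F] Ω | g (e z) = e z} ∈ nhds (s.s (σ 1)) := by
        rw [map_one, map_one]
        exact fix_nhds (e z)
      filter_upwards [h2 h3] with g hg
      apply e.injective
      rw [hρ]
      exact hg
    have h4 : {g : B₀ ≃ₐ[K] B₀ | ∀ z ∈ S, ρ (s.s (σ g)) z = z} ∈ nhds (1 : B₀ ≃ₐ[K] B₀) := by
      have h5 := (Filter.biInter_finset_mem S (f := nhds (1 : B₀ ≃ₐ[K] B₀))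
        (s := fun z => {g : B₀ ≃ₐ[K] B₀ | ρ (s.s (σ g)) z = z})).2 (fun z _ => h1 z)
      refine Filter.mem_of_superset h5 ?_
      intro g hg z hz
      simp only [Set.mem_iInter] at hg
      exact hg z hz
    refine Filter.mem_map.2 (Filter.mem_of_superset h4 ?_)
    intro g hg
    apply hEU
    rw [SetLike.mem_coe, ← hS]
    have h6 : IntermediateField.adjoin F₀ (S : Set Ω₀) ≤
        IntermediateField.fixedField (Subgroup.zpowers (ρ (s.s (σ g)))) := by
      rw [IntermediateField.adjoin_le_iff]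
      intro z hz
      rw [SetLike.mem_coe, IntermediateField.mem_fixedField_iff]
      intro f hf
      rw [Subgroup.mem_zpowers_iff] at hf
      obtain ⟨n, rfl⟩ := hf
      have h7 : ρ (s.s (σ g)) ∈ MulAction.stabilizer (Ω₀ ≃ₐ[F₀] Ω₀) z := hg z hz
      exact Subgroup.zpow_mem _ h7 n
    rw [IntermediateField.mem_fixingSubgroup_iff]
    intro x hx
    exact (IntermediateField.mem_fixedField_iff _ _).1 (h6 hx) _ (Subgroup.mem_zpowers _)
  refine ⟨{ j := { toRingHom := j₀, commutes' := ?_ }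
            s := (ρ.comp s.s).comp σ
            cont := hcont
            sec := ?_ }, hj₀, ?_⟩
  · intro c
    apply e.injective
    change e (j₀ (algebraMap K B₀ c)) = _
    rw [hj₀, hc]
  · intro g x
    apply e.injective
    change e (ρ (s.s (σ g)) (j₀ x)) = e (j₀ (g x))
    rw [hρ, hj₀, hj₀, s.sec, hσj]
  · intro g z
    exact hρ _ z

end Pool.Agent.Zk90.FG
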